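import Pool.Agent.H33.Ric1

namespace Pool.Agent.Results.MP_7ca01f_co.Q1

open Matrix Filter

/-- Laplacian of a weight matrix. -/
noncomputable def lap {V : Type} [Fintype V] [DecidableEq V] (A : Matrix V V ℝ) : Matrix V V ℝ :=
  Matrix.diagonal (fun u => ∑ v, A u v) - A

/-- Largest eigenvalue. -/
noncomputable def lam1 {V : Type} [Fintype V] [DecidableEq V] (A : Matrix V V ℝ) : ℝ :=
  sSup (spectrum ℝ A)

/-- `A` is the adjacency matrix of a weighted graph whose edges are edges of `G`. -/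
def IsWeightedSub {V : Type} (G : SimpleGraph V) (A : Matrix V V ℝ) : Prop :=
  (∀ u v, A u v = A v u) ∧ (∀ u v, 0 ≤ A u v) ∧ ∀ u v, A u v ≠ 0 → G.Adj u v

def IsSparsifier {V : Type} [Fintype V] [DecidableEq V] (G : SimpleGraph V) [DecidableRel G.Adj]
    (ε : ℝ) (A : Matrix V V ℝ) : Prop :=
  ∀ x : V → ℝ, (1 - ε) * (x ⬝ᵥ lap (G.adjMatrix ℝ) *ᵥ x) ≤ x ⬝ᵥ lap A *ᵥ x ∧
    x ⬝ᵥ lap A *ᵥ x ≤ (1 + ε) * (x ⬝ᵥ lap (G.adjMatrix ℝ) *ᵥ x)

theorem quad {V : Type} [Fintype V] [DecidableEq V] (A : Matrix V V ℝ) (x : V → ℝ) :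
    x ⬝ᵥ lap A *ᵥ x = ∑ u, ∑ v, A u v * (x u * (x u - x v)) := by
  unfold lap
  rw [Matrix.sub_mulVec]
  simp only [dotProduct, Pi.sub_apply, Matrix.mulVec_diagonal]
  refine Finset.sum_congr rfl fun u _ => ?_
  simp only [mulVec, dotProduct]
  rw [Finset.sum_mul, ← Finset.sum_sub_distrib, Finset.mul_sum]
  exact Finset.sum_congr rfl fun v _ => by ring

abbrev W (m : ℕ) := Fin 3 ⊕ Fin m

def GG (m : ℕ) : SimpleGraph (W m) where
  Adj a b := a ≠ b ∧ (a.isLeft = true ∨ b.isLeft = true)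
  symm := ⟨fun _ _ h => ⟨h.1.symm, h.2.symm⟩⟩
  loopless := ⟨fun _ h => h.1 rfl⟩

instance (m : ℕ) : DecidableRel (GG m).Adj := fun a b =>
  inferInstanceAs (Decidable (a ≠ b ∧ (a.isLeft = true ∨ b.isLeft = true)))

noncomputable def HH (m : ℕ) : Matrix (W m) (W m) ℝ
  | Sum.inl i, Sum.inl j => !![0, 1 + (m : ℝ) / 4, 1; 1 + (m : ℝ) / 4, 0, 0; 1, 0, 0] i j
  | Sum.inl _, Sum.inr _ => 1
  | Sum.inr _, Sum.inl _ => 1
  | Sum.inr _, Sum.inr _ => 0

theorem adjM (m : ℕ) (a b : W m) : (GG m).adjMatrix ℝ a b =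
    if a ≠ b ∧ (a.isLeft = true ∨ b.isLeft = true) then 1 else 0 := by
  simp only [SimpleGraph.adjMatrix_apply]; rfl

theorem quadG (m : ℕ) (x : W m → ℝ) : x ⬝ᵥ lap ((GG m).adjMatrix ℝ) *ᵥ x =
    (x (.inl 0) - x (.inl 1)) ^ 2 + (x (.inl 0) - x (.inl 2)) ^ 2 + (x (.inl 1) - x (.inl 2)) ^ 2 +
      ∑ j : Fin m, ((x (.inl 0) - x (.inr j)) ^ 2 + (x (.inl 1) - x (.inr j)) ^ 2 +
        (x (.inl 2) - x (.inr j)) ^ 2) := by
  rw [quad]
  simp only [adjM, Fintype.sum_sum_type, Fin.sum_univ_three]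
  simp
  have : ∑ j : Fin m, ((x (.inl 0) - x (.inr j)) ^ 2 + (x (.inl 1) - x (.inr j)) ^ 2 +
        (x (.inl 2) - x (.inr j)) ^ 2) = ∑ j : Fin m, x (.inl 0) * (x (.inl 0) - x (.inr j)) +
        ∑ j : Fin m, x (.inl 1) * (x (.inl 1) - x (.inr j)) +
        ∑ j : Fin m, x (.inl 2) * (x (.inl 2) - x (.inr j)) +
        ∑ j : Fin m, (x (.inr j) * (x (.inr j) - x (.inl 0)) +
          x (.inr j) * (x (.inr j) - x (.inl 1)) + x (.inr j) * (x (.inr j) - x (.inl 2))) := by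
    rw [← Finset.sum_add_distrib, ← Finset.sum_add_distrib, ← Finset.sum_add_distrib]
    exact Finset.sum_congr rfl fun j _ => by ring
  rw [this]; ring

theorem quadH (m : ℕ) (x : W m → ℝ) : x ⬝ᵥ lap (HH m) *ᵥ x =
    (1 + (m : ℝ) / 4) * (x (.inl 0) - x (.inl 1)) ^ 2 + (x (.inl 0) - x (.inl 2)) ^ 2 +
      ∑ j : Fin m, ((x (.inl 0) - x (.inr j)) ^ 2 + (x (.inl 1) - x (.inr j)) ^ 2 +
        (x (.inl 2) - x (.inr j)) ^ 2) := by
  rw [quad]
  simp only [Fintype.sum_sum_type, Fin.sum_univ_three, HH]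
  simp
  have : ∑ j : Fin m, ((x (.inl 0) - x (.inr j)) ^ 2 + (x (.inl 1) - x (.inr j)) ^ 2 +
        (x (.inl 2) - x (.inr j)) ^ 2) = ∑ j : Fin m, x (.inl 0) * (x (.inl 0) - x (.inr j)) +
        ∑ j : Fin m, x (.inl 1) * (x (.inl 1) - x (.inr j)) +
        ∑ j : Fin m, x (.inl 2) * (x (.inl 2) - x (.inr j)) +
        ∑ j : Fin m, (x (.inr j) * (x (.inr j) - x (.inl 0)) +
          x (.inr j) * (x (.inr j) - x (.inl 1)) + x (.inr j) * (x (.inr j) - x (.inl 2))) := by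
    rw [← Finset.sum_add_distrib, ← Finset.sum_add_distrib, ← Finset.sum_add_distrib]
    exact Finset.sum_congr rfl fun j _ => by ring
  rw [this]; ring

theorem spars (m : ℕ) (hm : 4 ≤ m) : IsSparsifier (GG m) (1 / 2) (HH m) := by
  intro x
  rw [quadG, quadH]
  set S := ∑ j : Fin m, ((x (.inl 0) - x (.inr j)) ^ 2 + (x (.inl 1) - x (.inr j)) ^ 2 +
        (x (.inl 2) - x (.inr j)) ^ 2) with hS
  have h1 : ∑ _j : Fin m, (x (.inl 0) - x (.inl 1)) ^ 2 / 2 ≤ S :=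
    Finset.sum_le_sum fun j _ => by
      nlinarith [sq_nonneg (x (.inl 0) + x (.inl 1) - 2 * x (.inr j)),
        sq_nonneg (x (.inl 2) - x (.inr j))]
  have h2 : ∑ _j : Fin m, (x (.inl 1) - x (.inl 2)) ^ 2 / 2 ≤ S :=
    Finset.sum_le_sum fun j _ => by
      nlinarith [sq_nonneg (x (.inl 1) + x (.inl 2) - 2 * x (.inr j)),
        sq_nonneg (x (.inl 0) - x (.inr j))]
  simp only [Finset.sum_const, Finset.card_univ, Fintype.card_fin, nsmul_eq_mul] at h1 h2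
  have hm' : (4 : ℝ) ≤ m := by exact_mod_cast hm
  have a1 := sq_nonneg (x (.inl 0) - x (.inl 1))
  have a2 := sq_nonneg (x (.inl 0) - x (.inl 2))
  have a3 := sq_nonneg (x (.inl 1) - x (.inl 2))
  constructor <;> nlinarith [mul_nonneg (sub_nonneg.2 hm') a1, mul_nonneg (sub_nonneg.2 hm') a3]

theorem HH_symm (m : ℕ) (u v : W m) : HH m u v = HH m v u := by
  rcases u with i | i <;> rcases v with j | j
  · fin_cases i <;> fin_cases j <;> simp [HH]
  all_goals simp [HH]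

theorem HH_nonneg (m : ℕ) (u v : W m) : 0 ≤ HH m u v := by
  have : (0 : ℝ) ≤ 1 + (m : ℝ) / 4 := by positivity
  rcases u with i | i <;> rcases v with j | j
  · fin_cases i <;> fin_cases j <;> simp [HH, this]
  all_goals simp [HH]

theorem le_lam {V : Type} [Fintype V] [DecidableEq V] (A : Matrix V V ℝ) {μ : ℝ}
    (h : ∃ t ∈ spectrum ℝ A, μ ≤ t) : μ ≤ lam1 A := by
  obtain ⟨t, ht, h⟩ := h
  exact h.trans (le_csSup (Matrix.finite_spectrum A).bddAbove ht)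

theorem lamH (m : ℕ) : (m : ℝ) / 4 ≤ lam1 (HH m) := by
  apply le_lam
  refine Pool.Agent.H33.Ric.lower _ (Sum.elim ![1, 1, 0] 0) _ ?_ ?_ ?_ ?_
  · ext u v; simp [HH_symm m u v]
  · rintro (i | i)
    · fin_cases i <;> simp
    · simp
  · intro h; have := congrFun h (Sum.inl 0); simp at this
  · rintro (i | i)
    · fin_cases i <;> simp [mulVec, dotProduct, Fin.sum_univ_three, HH]
    · simp [mulVec, dotProduct, Fin.sum_univ_three, HH]

theorem lamG (s : ℕ) (hs : 1 ≤ s) : 1 ≤ lam1 ((GG (s * s)).adjMatrix ℝ) ∧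
    lam1 ((GG (s * s)).adjMatrix ℝ) ≤ 4 * s := by
  have hs' : (1 : ℝ) ≤ s := by exact_mod_cast hs
  have hl : ∃ t ∈ spectrum ℝ ((GG (s * s)).adjMatrix ℝ), (1 : ℝ) ≤ t := by
    refine Pool.Agent.H33.Ric.lower _ (Sum.elim ![1, 1, 0] 0) _ ?_ ?_ ?_ ?_
    · ext u v; simp [SimpleGraph.adj_comm]
    · rintro (i | i)
      · fin_cases i <;> simp
      · simp
    · intro h; have := congrFun h (Sum.inl 0); simp at this
    · rintro (i | i)
      · fin_cases i <;> simp only [mulVec, dotProduct, adjM] <;> simp [Fin.sum_univ_three]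
      · simp only [mulVec, dotProduct, adjM]; simp [Fin.sum_univ_three]
  refine ⟨le_lam _ hl, csSup_le ⟨_, hl.choose_spec.1⟩ ?_⟩
  refine Pool.Agent.H33.Ric.upper _ (Sum.elim (fun _ => (s : ℝ)) 1) _ ?_ ?_ ?_
  · intro i j _; rw [adjM]; split_ifs <;> norm_num
  · rintro (i | i)
    · simp; omega
    · simp
  · rintro (i | i)
    · fin_cases i <;> simp only [mulVec, dotProduct, adjM] <;> simp [Fin.sum_univ_three] <;>
        nlinarith
    · simp only [mulVec, dotProduct, adjM]; simp [Fin.sum_univ_three]; nlinarith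

theorem result : ∃ (V : ℕ → Type) (_ : ∀ n, Fintype (V n)) (_ : ∀ n, DecidableEq (V n))
    (G : ∀ n, SimpleGraph (V n)) (_ : ∀ n, DecidableRel (G n).Adj) (ε : ℕ → ℝ)
    (A : ∀ n, Matrix (V n) (V n) ℝ),
    (∀ n, (G n).Connected ∧ 0 < ε n ∧ ε n < 1 ∧ IsWeightedSub (G n) (A n) ∧
      (∃ u v, (G n).Adj u v ∧ A n u v = 0) ∧ IsSparsifier (G n) (ε n) (A n)) ∧
    Tendsto (fun n => |lam1 (A n) - lam1 ((G n).adjMatrix ℝ)| /
      (ε n * lam1 ((G n).adjMatrix ℝ))) atTop atTop := by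
  refine ⟨fun n => W ((8 * n + 16) * (8 * n + 16)), inferInstance, inferInstance,
    fun n => GG _, inferInstance, fun _ => 1 / 2, fun n => HH _, fun n => ⟨?_, by norm_num,
    by norm_num, ⟨HH_symm _, HH_nonneg _, ?_⟩, ⟨.inl 1, .inl 2, ⟨by simp, by simp⟩, by simp [HH]⟩,
    spars _ (by nlinarith)⟩, ?_⟩
  · have key : ∀ r, (GG ((8 * n + 16) * (8 * n + 16))).Reachable (.inl 0) r := by
      intro r
      by_cases h : Sum.inl 0 = r
      · rw [← h]
      · exact SimpleGraph.Adj.reachable ⟨h, by simp⟩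
    exact ⟨fun a b => (key a).symm.trans (key b)⟩
  · rintro (i | i) (j | j) h
    · refine ⟨?_, by simp⟩
      intro e
      rw [e] at h
      fin_cases j <;> simp [HH] at h
    · exact ⟨by simp, by simp⟩
    · exact ⟨by simp, by simp⟩
    · simp [HH] at h
  · refine tendsto_atTop_mono (fun n => ?_) tendsto_natCast_atTop_atTop
    obtain ⟨h1, h2⟩ := lamG (8 * n + 16) (by omega)
    have h3 := lamH ((8 * n + 16) * (8 * n + 16))
    push_cast at h2 h3
    rw [le_div_iff₀ (by positivity)]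
    refine le_trans ?_ (le_abs_self _)
    have hn : (0 : ℝ) ≤ n := Nat.cast_nonneg n
    nlinarith [mul_le_mul_of_nonneg_left h2 hn]

end Pool.Agent.Results.MP_7ca01f_co.Q1
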